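import Pool.Agent.H48.WN.Poi

/-!
# [WH] Poisson summation in logarithmic variables

For a smooth `F` with compact support, `|sum_m F(log m) - int F(y) e^y dy| ≤ int e^(-y) |F''(y) - F'(y)| dy`.
-/

set_option autoImplicit false

namespace Pool.Agent.H23.WH

open Complex MeasureTheory Finset Filter Topology

/-- `F (log x)` for `x > 0`, zero otherwise -/
noncomputable def lg (F : ℝ → ℂ) (x : ℝ) : ℂ := if 0 < x then F (Real.log x) else 0

theorem lg_pos (F : ℝ → ℂ) {x : ℝ} (hx : 0 < x) : lg F x = F (Real.log x) := by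
  unfold lg
  rw [if_pos hx]

theorem lg_neg (F : ℝ → ℂ) {x : ℝ} (hx : x ≤ 0) : lg F x = 0 := by
  unfold lg
  rw [if_neg (not_lt.2 hx)]

theorem lg_lt {F : ℝ → ℂ} {y0 : ℝ} (h0 : ∀ y ≤ y0, F y = 0) {x : ℝ} (hx : x < Real.exp y0) : lg F x = 0 := by
  unfold lg
  split_ifs with h
  · refine h0 _ ?_
    have h1 : Real.log x < y0 := by
      rw [← Real.log_exp y0]
      exact Real.log_lt_log h hx
    exact h1.le
  · rfl

theorem lg_gt {F : ℝ → ℂ} {y1 : ℝ} (h1 : ∀ y, y1 ≤ y → F y = 0) {x : ℝ} (hx : Real.exp y1 ≤ x) : lg F x = 0 := by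
  have h0 : 0 < x := (Real.exp_pos _).trans_le hx
  rw [lg_pos F h0]
  refine h1 _ ?_
  rw [← Real.log_exp y1]
  exact Real.log_le_log (Real.exp_pos _) hx

/-- substitution `x = e^y` -/
theorem int_exp {E : Type*} [NormedAddCommGroup E] [NormedSpace ℝ E] (g : ℝ → E) :
    ∫ x in Set.Ioi (0 : ℝ), g x = ∫ y, Real.exp y • g (Real.exp y) := by
  have h := integral_image_eq_integral_abs_deriv_smul (s := Set.univ) (f := Real.exp) (f' := Real.exp) MeasurableSet.univ
    (fun x _ => (Real.hasDerivAt_exp x).hasDerivWithinAt) (Real.exp_injective.injOn) g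
  rw [Set.image_univ, Real.range_exp, Measure.restrict_univ] at h
  rw [h]
  refine integral_congr_ae (Eventually.of_forall fun y => ?_)
  simp only [abs_of_pos (Real.exp_pos y)]

theorem int_lg (F : ℝ → ℂ) : ∫ x, lg F x = ∫ y, Real.exp y • F y := by
  rw [← setIntegral_eq_integral_of_forall_compl_eq_zero (s := Set.Ioi (0 : ℝ)) (fun x hx => lg_neg F (not_lt.1 hx)),
    int_exp]
  refine integral_congr_ae (Eventually.of_forall fun y => ?_)
  simp only [lg_pos F (Real.exp_pos y), Real.log_exp]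

theorem int_lg_norm (F : ℝ → ℂ) : ∫ x, ‖lg F x‖ = ∫ y, Real.exp y * ‖F y‖ := by
  rw [← setIntegral_eq_integral_of_forall_compl_eq_zero (s := Set.Ioi (0 : ℝ)) (fun x hx => by
    rw [lg_neg F (not_lt.1 hx), norm_zero]), int_exp]
  refine integral_congr_ae (Eventually.of_forall fun y => ?_)
  simp only [lg_pos F (Real.exp_pos y), Real.log_exp, smul_eq_mul]

theorem lg_contDiff {F : ℝ → ℂ} (hF : ContDiff ℝ (⊤ : ℕ∞) F) {y0 : ℝ} (h0 : ∀ y ≤ y0, F y = 0) :
    ContDiff ℝ (⊤ : ℕ∞) (lg F) := by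
  rw [contDiff_iff_contDiffAt]
  intro x
  by_cases hx : x < Real.exp y0
  · have h1 : lg F =ᶠ[𝓝 x] fun _ => 0 := by
      filter_upwards [isOpen_Iio.mem_nhds hx] with z hz
      exact lg_lt h0 hz
    exact contDiffAt_const.congr_of_eventuallyEq h1
  · push Not at hx
    have hx0 : 0 < x := (Real.exp_pos _).trans_le hx
    have h1 : lg F =ᶠ[𝓝 x] fun z => F (Real.log z) := by
      filter_upwards [isOpen_Ioi.mem_nhds hx0] with z hz
      exact lg_pos F hz
    refine ContDiffAt.congr_of_eventuallyEq ?_ h1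
    exact (hF.contDiffAt (x := Real.log x)).comp x (Real.contDiffAt_log.2 hx0.ne')

/-- the derivative -/
theorem lg_deriv {F : ℝ → ℂ} (hF : ContDiff ℝ (⊤ : ℕ∞) F) {y0 : ℝ} (h0 : ∀ y ≤ y0, F y = 0) :
    deriv (lg F) = lg (fun y => (Real.exp (-y) : ℂ) * deriv F y) := by
  funext x
  by_cases hx : x < Real.exp y0
  · have h1 : lg F =ᶠ[𝓝 x] fun _ => 0 := by
      filter_upwards [isOpen_Iio.mem_nhds hx] with z hz
      exact lg_lt h0 hz
    rw [h1.deriv_eq, deriv_const]
    by_cases hx0 : 0 < x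
    · rw [lg_pos _ hx0]
      have h2 : F =ᶠ[𝓝 (Real.log x)] fun _ => 0 := by
        have h3 : Real.log x < y0 := by
          rw [← Real.log_exp y0]
          exact Real.log_lt_log hx0 hx
        filter_upwards [isOpen_Iio.mem_nhds h3] with z hz
        exact h0 z (le_of_lt hz)
      rw [h2.deriv_eq, deriv_const, mul_zero]
    · rw [lg_neg _ (not_lt.1 hx0)]
  · push Not at hx
    have hx0 : 0 < x := (Real.exp_pos _).trans_le hx
    have h1 : lg F =ᶠ[𝓝 x] fun z => F (Real.log z) := by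
      filter_upwards [isOpen_Ioi.mem_nhds hx0] with z hz
      exact lg_pos F hz
    rw [h1.deriv_eq, lg_pos _ hx0]
    have hd : HasDerivAt F (deriv F (Real.log x)) (Real.log x) :=
      ((hF.differentiable (by simp)) (Real.log x)).hasDerivAt
    have h2 := hd.scomp x (Real.hasDerivAt_log hx0.ne')
    have h3 := h2.deriv
    simp only [Function.comp_def] at h3
    rw [h3, Real.exp_neg, Real.exp_log hx0, Complex.real_smul]

/-- **Poisson summation in logarithmic variables** -/
theorem lgp {F : ℝ → ℂ} (hF : ContDiff ℝ (⊤ : ℕ∞) F) {y0 y1 : ℝ} (h0 : ∀ y ≤ y0, F y = 0) (h1 : ∀ y, y1 ≤ y → F y = 0)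
    {N : ℕ} (hN : Real.exp y1 ≤ N) :
    ‖(∑ m ∈ Icc 1 N, F (Real.log m)) - ∫ y, Real.exp y • F y‖ ≤
      ∫ y, Real.exp (-y) * ‖deriv (deriv F) y - deriv F y‖ := by
  have hc : HasCompactSupport (lg F) := by
    refine HasCompactSupport.intro (isCompact_Icc (a := Real.exp y0) (b := Real.exp y1)) fun x hx => ?_
    by_cases h2 : x < Real.exp y0
    · exact lg_lt h0 h2
    · push Not at h2
      have h3 : Real.exp y1 ≤ x := by
        by_contra h
        push Not at h
        exact hx ⟨h2, h.le⟩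
      exact lg_gt h1 h3
  have hp := Pool.Agent.H48.WN.poi (lg F) (lg_contDiff hF h0) hc 2 le_rfl
  -- the sum
  have hs : (∑' m : ℤ, lg F m) = ∑ m ∈ Icc 1 N, F (Real.log m) := by
    have e1 : (∑' m : ℤ, lg F m) = ∑ m ∈ (Icc 1 N).map Nat.castEmbedding, lg F (m : ℤ) := by
      refine tsum_eq_sum fun m hm => ?_
      by_cases hm0 : 0 < m
      · obtain ⟨n, rfl⟩ : ∃ n : ℕ, m = n := ⟨m.toNat, by omega⟩
        have hn : N < n := by
          by_contra hlt
          apply hm
          rw [Finset.mem_map]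
          refine ⟨n, Finset.mem_Icc.2 ⟨by omega, by omega⟩, rfl⟩
        refine lg_gt h1 (hN.trans ?_)
        have : (N : ℝ) ≤ (n : ℝ) := by exact_mod_cast hn.le
        simpa using this
      · refine lg_neg F ?_
        exact_mod_cast not_lt.1 hm0
    rw [e1, Finset.sum_map]
    refine Finset.sum_congr rfl fun n hn => ?_
    have hn1 : 1 ≤ n := (Finset.mem_Icc.1 hn).1
    have e2 : (((Nat.castEmbedding n : ℤ)) : ℝ) = (n : ℝ) := by simp
    rw [e2, lg_pos]
    exact_mod_cast hn1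
  -- the second derivative
  have hF1 : ContDiff ℝ (⊤ : ℕ∞) (deriv F) := hF.deriv'
  have hE : ContDiff ℝ (⊤ : ℕ∞) (fun y : ℝ => (Real.exp (-y) : ℂ)) :=
    Complex.ofRealCLM.contDiff.comp (Real.contDiff_exp.comp contDiff_neg)
  have hG : ContDiff ℝ (⊤ : ℕ∞) (fun y => (Real.exp (-y) : ℂ) * deriv F y) := hE.mul hF1
  have h0' : ∀ y ≤ y0 - 1, (Real.exp (-y) : ℂ) * deriv F y = 0 := by
    intro y hy
    have h2 : F =ᶠ[𝓝 y] fun _ => 0 := by
      filter_upwards [isOpen_Iio.mem_nhds (show y < y0 by linarith)] with z hz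
      exact h0 z (le_of_lt hz)
    rw [h2.deriv_eq, deriv_const, mul_zero]
  have hd2 : iteratedDeriv 2 (lg F) = lg (fun y => (Real.exp (-y) : ℂ) * deriv (fun y => (Real.exp (-y) : ℂ) * deriv F y) y) := by
    rw [iteratedDeriv_succ, iteratedDeriv_one, lg_deriv hF h0, lg_deriv hG h0']
  rw [hs, int_lg, hd2, int_lg_norm] at hp
  refine hp.trans (le_of_eq ?_)
  refine integral_congr_ae (Eventually.of_forall fun y => ?_)
  simp only
  have hdE : HasDerivAt (fun y : ℝ => (Real.exp (-y) : ℂ)) (-(Real.exp (-y) : ℂ)) y := by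
    have h3 : HasDerivAt (fun y : ℝ => Real.exp (-y)) (-Real.exp (-y)) y := by
      have := (Real.hasDerivAt_exp (-y)).comp y (hasDerivAt_neg y)
      rw [mul_neg_one] at this
      exact this
    have h4 := h3.ofReal_comp
    push_cast at h4 ⊢
    exact h4
  have hdF : HasDerivAt (deriv F) (deriv (deriv F) y) y :=
    ((hF1.differentiable (by simp)) y).hasDerivAt
  have h5 := (hdE.mul hdF).deriv
  have h6 : deriv (fun y => (Real.exp (-y) : ℂ) * deriv F y) y =
      (Real.exp (-y) : ℂ) * (deriv (deriv F) y - deriv F y) := by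
    rw [show (fun y => (Real.exp (-y) : ℂ) * deriv F y) = (fun y : ℝ => (Real.exp (-y) : ℂ)) * deriv F from rfl, h5]
    ring
  rw [h6, norm_mul, norm_mul, Complex.norm_real, Real.norm_of_nonneg (Real.exp_pos _).le]
  have h7 : Real.exp y * Real.exp (-y) = 1 := by
    rw [← Real.exp_add]
    simp
  calc Real.exp y * (Real.exp (-y) * (Real.exp (-y) * ‖deriv (deriv F) y - deriv F y‖)) =
      (Real.exp y * Real.exp (-y)) * (Real.exp (-y) * ‖deriv (deriv F) y - deriv F y‖) := by ring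
    _ = _ := by rw [h7, one_mul]

end Pool.Agent.H23.WH
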